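import Pool.Agent.Helper46.M9.Gen.Sm
import Pool.Agent.Helper93.HP.P4
import Pool.Agent.Helper46.M8.Ns

/-!
# Uniform bounds and the uniform constant in (T), by compactness
-/

open Filter Metric Module Set
open scoped Topology ContDiff

set_option maxSynthPendingDepth 3

namespace Pool.Agent.Helper46.Gen
open Pool.Agent.Helper20.PC Pool.Agent.Helper20.HP Pool.Agent.Helper20.M8 Pool.Agent.Helper20.MB
open Pool.Agent.Helper46.M8 (chrL GamL GamL_eq contDiffAt_fderiv_param contDiffAt_lie_param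
  contDiffAt_inverse_comp)

variable {P V Y : Type*} [NormedAddCommGroup P] [NormedSpace ℝ P] [NormedAddCommGroup V]
  [NormedSpace ℝ V] [FiniteDimensional ℝ V] [NormedAddCommGroup Y] [NormedSpace ℝ Y]
  [FiniteDimensional ℝ Y]

omit [NormedSpace ℝ P] in
/-- positive definite forms on a compact set of parameters. -/
theorem unit_bound {E : Type*} [NormedAddCommGroup E] [NormedSpace ℝ E] [FiniteDimensional ℝ E]
    {B : P → E →L[ℝ] E →L[ℝ] ℝ} {K : Set P} (hK : IsCompact K) (hc : ContinuousOn B K)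
    (hpos : ∀ p ∈ K, ∀ v, v ≠ 0 → 0 < B p v v) :
    ∃ C : ℝ, 0 < C ∧ ∀ p ∈ K, ∀ v : E, ‖v‖ ^ 2 ≤ C * B p v v := by
  have hKs : IsCompact (K ×ˢ (sphere (0 : E) 1)) := hK.prod (isCompact_sphere 0 1)
  have hc1 : ContinuousOn (fun q : P × E => B q.1 q.2 q.2) (K ×ˢ (sphere (0 : E) 1)) := by
    have h1 : ContinuousOn (fun q : P × E => B q.1) (K ×ˢ (sphere (0 : E) 1)) :=
      hc.comp continuousOn_fst fun q hq => hq.1
    exact (h1.clm_apply continuousOn_snd).clm_apply continuousOn_snd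
  have hpos1 : ∀ q ∈ (K ×ˢ (sphere (0 : E) 1)), 0 < B q.1 q.2 q.2 := by
    rintro ⟨p, v⟩ ⟨hp, hv⟩
    have hv' : v ≠ 0 := by
      rintro rfl
      simp at hv
    exact hpos p hp v hv'
  have hcinv : ContinuousOn (fun q : P × E => (B q.1 q.2 q.2)⁻¹) (K ×ˢ (sphere (0 : E) 1)) :=
    hc1.inv₀ fun q hq => (hpos1 q hq).ne'
  obtain ⟨C, hC⟩ := hKs.exists_bound_of_continuousOn hcinv
  refine ⟨max C 1, by positivity, fun p hp v => ?_⟩
  rcases eq_or_ne v 0 with rfl | hv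
  · simp
  have hn : 0 < ‖v‖ := norm_pos_iff.mpr hv
  have hmem : ((p, ‖v‖⁻¹ • v) : P × E) ∈ (K ×ˢ (sphere (0 : E) 1)) := by
    refine Set.mk_mem_prod hp ?_
    simp [norm_smul, hn.ne']
  have h1 := hC _ hmem
  have h2 := hpos1 _ hmem
  dsimp only at h1 h2
  have e : B p (‖v‖⁻¹ • v) (‖v‖⁻¹ • v) = (‖v‖⁻¹) ^ 2 * B p v v := by
    simp only [map_smul, _root_.smul_apply, smul_eq_mul]
    ring
  rw [e] at h1 h2
  have hv2 : 0 < B p v v := hpos p hp v hv
  have h3 : ((‖v‖⁻¹) ^ 2 * B p v v)⁻¹ ≤ C := by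
    refine le_trans (le_abs_self _) ?_
    simpa using h1
  have h4 : ((‖v‖⁻¹) ^ 2 * B p v v)⁻¹ = ‖v‖ ^ 2 / B p v v := by
    field_simp
  rw [h4, div_le_iff₀ hv2] at h3
  exact h3.trans (mul_le_mul_of_nonneg_right (le_max_left _ _) hv2.le)

variable {D : P → BD V Y} {p : P} {x : V}

section TE

/-- the covector `ξ ↦ k(y, Ω(X,ξ) w)`. -/
noncomputable def cv (D : BD V Y) (x X : V) (y w : Y) : V →L[ℝ] ℝ :=
  (D.k x y) ∘L ((fderiv ℝ D.A x X).flip w - ((fderiv ℝ D.A x).flip X).flip w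
    + (D.A x X) ∘L ((D.A x).flip w) - (D.A x).flip (D.A x X w))

omit [FiniteDimensional ℝ V] [FiniteDimensional ℝ Y] in
lemma cv_apply (D : BD V Y) (x X : V) (y w : Y) (ξ : V) :
    cv D x X y w ξ = D.k x y (OmV D.A x X ξ w) := by
  simp only [cv, OmV, ContinuousLinearMap.comp_apply, _root_.add_apply, _root_.sub_apply,
    ContinuousLinearMap.flip_apply]

/-- the vector `t` with `h(t, ξ) = k(y, Ω(X,ξ) w)`. -/
noncomputable def tv (D : BD V Y) (x X : V) (y w : Y) : V := (D.h x).inverse (cv D x X y w)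

/-- the expression in (T). -/
noncomputable def TE (D : BD V Y) (x X U : V) (y w : Y) : ℝ :=
  num D.h x X U + lie D.Xs D.OmS (x, X, U, y, w, y, w) + (1/4) * D.h x (tv D x X y w) (tv D x X y w)
    + (1/2) * lie D.Xs (lie D.Xs D.SS) (x, X, U, y, w, y, w)

omit [FiniteDimensional ℝ Y] in
lemma tv_spec (H : SmF D p x) (X : V) (y w : Y) (ξ : V) :
    (D p).h x (tv (D p) x X y w) ξ = (D p).k x y (OmV (D p).A x X ξ w) := by
  rw [tv, H.inv.self_apply_inverse, cv_apply]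

omit [FiniteDimensional ℝ Y] in
lemma tv_unique (H : SmF D p x) {X : V} {y w : Y} {t : V}
    (ht : ∀ ξ, (D p).h x t ξ = (D p).k x y (OmV (D p).A x X ξ w)) : t = tv (D p) x X y w := by
  have h1 : (D p).h x t = cv (D p) x X y w := by
    ext ξ
    rw [ht, cv_apply]
  rw [tv, ← h1, H.inv.inverse_apply_self]

omit [FiniteDimensional ℝ Y] in
lemma TE_eq (H : SmF D p x) {X U : V} {y w : Y} {t : V}
    (ht : ∀ ξ, (D p).h x t ξ = (D p).k x y (OmV (D p).A x X ξ w)) :
    TE (D p) x X U y w = num (D p).h x X U + lie (D p).Xs (D p).OmS (x, X, U, y, w, y, w)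
      + (1/4) * (D p).h x t t
      + (1/2) * lie (D p).Xs (lie (D p).Xs (D p).SS) (x, X, U, y, w, y, w) := by
  rw [TE, tv_unique H ht]

end TE

/-! ### homogeneity -/
section hom

/-- the scaling of `U`, `y₂`, `y₄`. -/
noncomputable def scE (r : ℝ) (hr : r ≠ 0) : St V Y ≃L[ℝ] St V Y :=
  (ContinuousLinearEquiv.refl ℝ V).prodCongr <| (ContinuousLinearEquiv.refl ℝ V).prodCongr <|
    (ContinuousLinearEquiv.smulLeft (Units.mk0 r hr)).prodCongr <|
    (ContinuousLinearEquiv.refl ℝ Y).prodCongr <|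
    (ContinuousLinearEquiv.smulLeft (Units.mk0 r hr)).prodCongr <|
    (ContinuousLinearEquiv.refl ℝ Y).prodCongr <|
    (ContinuousLinearEquiv.smulLeft (Units.mk0 r hr))

omit [FiniteDimensional ℝ V] [FiniteDimensional ℝ Y] in
lemma scE_apply (r : ℝ) (hr : r ≠ 0) (s : St V Y) :
    scE r hr s = (s.1, s.2.1, r • s.2.2.1, s.2.2.2.1, r • s.2.2.2.2.1, s.2.2.2.2.2.1,
      r • s.2.2.2.2.2.2) := rfl

lemma lie_comp {E F : Type*} [NormedAddCommGroup E] [NormedSpace ℝ E] [NormedAddCommGroup F]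
    [NormedSpace ℝ F] (L : E ≃L[ℝ] E) {X : E → E} (f : E → F) {s : E} (h : X (L s) = L (X s)) :
    lie X f (L s) = lie X (fun s => f (L s)) s := by
  have e := L.comp_right_fderiv (f := f) (x := s)
  have e' : fderiv ℝ (fun s => f (L s)) s = (fderiv ℝ f (L s)).comp (L : E →L[ℝ] E) := e
  rw [lie, lie, e', h]
  rfl

omit [FiniteDimensional ℝ V] [FiniteDimensional ℝ Y] in
private lemma Xs_sc (H : SmF D p x) (r : ℝ) (hr : r ≠ 0) {s : St V Y} (hs : s.1 = x) :
    ∀ᶠ s' in 𝓝 s, (D p).Xs (scE r hr s') = scE r hr ((D p).Xs s') := by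
  have hi : ContDiffAt ℝ ∞ (fun s' : St V Y => ((p, s'.1) : P × V)) s := by fun_prop
  have h1 := hi.continuousAt.eventually (Gam_near (G := fun p => (D p).h) (q := (p, s.1))
      ((hs ▸ H.h).of_le (by exact WithTop.coe_le_coe.2 le_top)))
  filter_upwards [h1] with s' hs'
  simp only [scE_apply, BD.Xs]
  simp only [hs', map_smul, smul_neg]

omit [FiniteDimensional ℝ V] [FiniteDimensional ℝ Y] in
private lemma OmS_sc (D : BD V Y) (r : ℝ) (hr : r ≠ 0) (s : St V Y) :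
    D.OmS (scE r hr s) = r ^ 2 * D.OmS s := by
  have e : ∀ (x X U : V) (w : Y), OmV D.A x X (r • U) (r • w) = (r ^ 2) • OmV D.A x X U w := by
    intro x X U w
    simp only [OmV, _root_.add_apply, _root_.sub_apply, ContinuousLinearMap.comp_apply, map_smul,
      _root_.smul_apply]
    module
  simp only [BD.OmS, scE_apply, e, map_smul, smul_eq_mul]

omit [FiniteDimensional ℝ V] [FiniteDimensional ℝ Y] in
private lemma SS_sc (D : BD V Y) (r : ℝ) (hr : r ≠ 0) (s : St V Y) :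
    D.SS (scE r hr s) = r ^ 2 * D.SS s := by
  simp only [BD.SS, scE_apply, map_smul, _root_.smul_apply, smul_eq_mul]
  ring

private lemma lie_mul {E : Type*} [NormedAddCommGroup E] [NormedSpace ℝ E] {X : E → E}
    {f : E → ℝ} {s : E} (c : ℝ) (hf : DifferentiableAt ℝ f s) :
    lie X (fun s => c * f s) s = c * lie X f s := by
  rw [lie, lie, (hf.hasFDerivAt.const_mul c).fderiv]
  rfl

omit [FiniteDimensional ℝ V] [FiniteDimensional ℝ Y] in
private lemma sl {E : Type*} [NormedAddCommGroup E] [NormedSpace ℝ E] {f : P → St V Y → E} {s : St V Y}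
    (h : ContDiffAt ℝ ∞ (fun q : P × St V Y => f q.1 q.2) (p, s)) : ContDiffAt ℝ ∞ (f p) s :=
  ContDiffAt.comp s (f := fun s : St V Y => ((p, s) : P × St V Y)) h
    (contDiffAt_const.prodMk contDiffAt_id)

omit [FiniteDimensional ℝ V] [FiniteDimensional ℝ Y] in
private lemma lOm_sc (H : SmF D p x) (r : ℝ) (hr : r ≠ 0) {s : St V Y} (hs : s.1 = x) :
    lie (D p).Xs (D p).OmS (scE r hr s) = r ^ 2 * lie (D p).Xs (D p).OmS s := by
  have H' : SmF D p s.1 := hs ▸ H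
  rw [lie_comp _ _ (Xs_sc H r hr hs).self_of_nhds]
  simp only [OmS_sc]
  exact lie_mul _ ((sl (f := fun p s => (D p).OmS s) (s_OmS (q := (p, s)) H')).differentiableAt (by simp))

omit [FiniteDimensional ℝ Y] in
private lemma llS_sc (H : SmF D p x) (r : ℝ) (hr : r ≠ 0) {s : St V Y} (hs : s.1 = x) :
    lie (D p).Xs (lie (D p).Xs (D p).SS) (scE r hr s)
      = r ^ 2 * lie (D p).Xs (lie (D p).Xs (D p).SS) s := by
  have H' : SmF D p s.1 := hs ▸ H
  have hX := Xs_sc H r hr hs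
  rw [lie_comp _ _ hX.self_of_nhds]
  have hd : ∀ᶠ s' in 𝓝 s, DifferentiableAt ℝ (D p).SS s' := by
    have h1 : ContDiffAt ℝ 1 (D p).SS s := (sl (f := fun p s => (D p).SS s)
      (s_SS (q := (p, s)) H')).of_le (by exact WithTop.coe_le_coe.2 le_top)
    exact (h1.eventually (by norm_num)).mono fun s' h => h.differentiableAt (by norm_num)
  have e : (fun s' => lie (D p).Xs (D p).SS (scE r hr s')) =ᶠ[𝓝 s]
      fun s' => r ^ 2 * lie (D p).Xs (D p).SS s' := by
    filter_upwards [hX, hd] with s' h1 h2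
    rw [lie_comp _ _ h1]
    simp only [SS_sc]
    exact lie_mul _ h2
  rw [lie, e.fderiv_eq]
  exact lie_mul (X := (D p).Xs) _ ((sl (f := fun p s => lie (D p).Xs (D p).SS s)
    (s_lS (q := (p, s)) H')).differentiableAt (by simp))

omit [FiniteDimensional ℝ Y] in
theorem TE_smul (H : SmF D p x) {r : ℝ} (hr : r ≠ 0) (X U : V) (y w : Y) :
    TE (D p) x X (r • U) y (r • w) = r ^ 2 * TE (D p) x X U y w := by
  have e1 : num (D p).h x X (r • U) = r ^ 2 * num (D p).h x X U := by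
    have := Pool.Agent.Helper93.HP.num_comb H.met 1 0 0 r X U
    simp only [one_smul, zero_smul, add_zero, zero_add, one_mul, zero_mul, sub_zero] at this
    rw [this]
  have e2 := lOm_sc H r hr (s := (x, X, U, y, w, y, w)) rfl
  have e3 := llS_sc H r hr (s := (x, X, U, y, w, y, w)) rfl
  rw [scE_apply] at e2 e3
  simp only at e2 e3
  have e4 : tv (D p) x X y (r • w) = r • tv (D p) x X y w := by
    refine (tv_unique H fun ξ => ?_).symm
    rw [map_smul, map_smul, _root_.smul_apply, tv_spec H, map_smul]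
  rw [TE, TE, e1, e2, e3, e4]
  simp only [map_smul, _root_.smul_apply, smul_eq_mul]
  ring

end hom

/-! ### the uniform constant -/
section cpt

private lemma cflip {Q E F G : Type*} [NormedAddCommGroup Q] [NormedSpace ℝ Q]
    [NormedAddCommGroup E] [NormedSpace ℝ E]
    [NormedAddCommGroup F] [NormedSpace ℝ F] [NormedAddCommGroup G] [NormedSpace ℝ G]
    {f : Q → E →L[ℝ] F →L[ℝ] G} {q : Q} (h : ContDiffAt ℝ ∞ f q) :
    ContDiffAt ℝ ∞ (fun q => (f q).flip) q :=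
  ContDiffAt.comp (g := fun B : E →L[ℝ] F →L[ℝ] G => B.flip) q
      (ContinuousLinearMap.flipₗᵢ ℝ E F G).contDiff.contDiffAt h

/-- configurations `(p, X, U, y, w)`. -/
abbrev Cfg (P V Y : Type*) := P × V × V × Y × Y

omit [FiniteDimensional ℝ V] [FiniteDimensional ℝ Y] in
private lemma c_fst {E : Type*} [NormedAddCommGroup E] [NormedSpace ℝ E] {f : P × V → E}
    {q : Cfg P V Y} (h : ContDiffAt ℝ ∞ f (q.1, x)) :
    ContDiffAt ℝ ∞ (fun q : Cfg P V Y => f (q.1, x)) q :=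
  ContDiffAt.comp q (f := fun q : Cfg P V Y => ((q.1, x) : P × V)) h (by fun_prop)

omit [FiniteDimensional ℝ Y] in
private lemma c_tv {q : Cfg P V Y} (H : SmF D q.1 x) : ContDiffAt ℝ ∞ (fun q : Cfg P V Y =>
    tv (D q.1) x q.2.1 q.2.2.2.1 q.2.2.2.2) q := by
  have hA : ContDiffAt ℝ ∞ (fun q : Cfg P V Y => (D q.1).A x) q := c_fst (f := fun q : P × V =>
    (D q.1).A q.2) H.A
  have hdA : ContDiffAt ℝ ∞ (fun q : Cfg P V Y => fderiv ℝ (D q.1).A x) q :=
    c_fst (f := fun q : P × V => fderiv ℝ (D q.1).A q.2)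
    (contDiffAt_fderiv_param (F := fun q : P × V => (D q.1).A q.2) (p := q.1) (z := x) H.A)
  have hk : ContDiffAt ℝ ∞ (fun q : Cfg P V Y => (D q.1).k x) q := c_fst (f := fun q : P × V =>
    (D q.1).k q.2) H.k
  have hh : ContDiffAt ℝ ∞ (fun q : Cfg P V Y => ((D q.1).h x).inverse) q :=
    contDiffAt_inverse_comp (F := fun q : Cfg P V Y => (D q.1).h x)
      (c_fst (f := fun q : P × V => (D q.1).h q.2) H.h) H.inv
  have hX : ContDiffAt ℝ ∞ (fun q : Cfg P V Y => q.2.1) q := by fun_prop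
  have hy : ContDiffAt ℝ ∞ (fun q : Cfg P V Y => q.2.2.2.1) q := by fun_prop
  have hw : ContDiffAt ℝ ∞ (fun q : Cfg P V Y => q.2.2.2.2) q := by fun_prop
  unfold tv cv
  refine hh.clm_apply ((hk.clm_apply hy).clm_comp ?_)
  refine ((((cflip (hdA.clm_apply hX)).clm_apply hw).sub
    ((cflip ((cflip hdA).clm_apply hX)).clm_apply hw)).add
    ((hA.clm_apply hX).clm_comp ((cflip hA).clm_apply hw))).sub
    ((cflip hA).clm_apply ((hA.clm_apply hX).clm_apply hw))

omit [FiniteDimensional ℝ Y] in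
theorem continuousOn_TE (D : P → BD V Y) (x : V) : ContinuousOn (fun q : Cfg P V Y =>
    TE (D q.1) x q.2.1 q.2.2.1 q.2.2.2.1 q.2.2.2.2) {q : Cfg P V Y | SmF D q.1 x} := by
  let ι : Cfg P V Y → P × St V Y := fun q =>
    (q.1, x, q.2.1, q.2.2.1, q.2.2.2.1, q.2.2.2.2, q.2.2.2.1, q.2.2.2.2)
  have hι : Continuous ι := by fun_prop
  have hm : ∀ q ∈ {q : Cfg P V Y | SmF D q.1 x}, SmF D (ι q).1 (ι q).2.1 := fun q hq => hq
  have h1 : ContinuousOn (fun q : Cfg P V Y => num (D q.1).h x q.2.1 q.2.2.1)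
      {q : Cfg P V Y | SmF D q.1 x} := (s_num D).comp (f := ι) hι.continuousOn hm
  have h2 : ContinuousOn (fun q : Cfg P V Y => lie (D q.1).Xs (D q.1).OmS
      (x, q.2.1, q.2.2.1, q.2.2.2.1, q.2.2.2.2, q.2.2.2.1, q.2.2.2.2))
      {q : Cfg P V Y | SmF D q.1 x} := fun q hq =>
    ((s_lOm (q := ι q) (hm q hq)).continuousAt.comp (f := ι) hι.continuousAt).continuousWithinAt
  have h3 : ContinuousOn (fun q : Cfg P V Y => lie (D q.1).Xs (lie (D q.1).Xs (D q.1).SS)
      (x, q.2.1, q.2.2.1, q.2.2.2.1, q.2.2.2.2, q.2.2.2.1, q.2.2.2.2))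
      {q : Cfg P V Y | SmF D q.1 x} := fun q hq =>
    ((s_llS (q := ι q) (hm q hq)).continuousAt.comp (f := ι) hι.continuousAt).continuousWithinAt
  have h4 : ContinuousOn (fun q : Cfg P V Y => tv (D q.1) x q.2.1 q.2.2.2.1 q.2.2.2.2)
      {q : Cfg P V Y | SmF D q.1 x} := fun q hq => (c_tv hq).continuousAt.continuousWithinAt
  have h5 : ContinuousOn (fun q : Cfg P V Y => (D q.1).h x)
      {q : Cfg P V Y | SmF D q.1 x} := fun q hq =>
    (c_fst (f := fun q : P × V => (D q.1).h q.2) hq.h).continuousAt.continuousWithinAt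
  unfold TE
  exact ((h1.add h2).add (continuousOn_const.mul ((h5.clm_apply h4).clm_apply h4))).add
    (continuousOn_const.mul h3)

theorem TT_of_pos {K : Set P} (hK : IsCompact K) (D : P → BD V Y) (x : V)
    (hS : ∀ p ∈ K, SmF D p x)
    (hpos : ∀ p ∈ K, ∀ (X U : V) (y w : Y), (D p).h x X X = 1 → (D p).h x X U = 0 →
      (D p).k x y y = 1 → (D p).k x y w = 0 → (U ≠ 0 ∨ w ≠ 0) → 0 < TE (D p) x X U y w) :
    ∃ c : ℝ, 0 < c ∧ ∀ p ∈ K, (D p).TT x c := by
  have ch : ContinuousOn (fun p => (D p).h x) K := fun p hp =>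
    (ContDiffAt.comp p (f := fun p : P => ((p, x) : P × V)) (hS p hp).h
      (by fun_prop)).continuousAt.continuousWithinAt
  have ck : ContinuousOn (fun p => (D p).k x) K := fun p hp =>
    (ContDiffAt.comp p (f := fun p : P => ((p, x) : P × V)) (hS p hp).k
      (by fun_prop)).continuousAt.continuousWithinAt
  obtain ⟨C1, hC1, H1⟩ := unit_bound hK ch fun p hp => (hS p hp).good.hpos.self_of_nhds
  obtain ⟨C2, hC2, H2⟩ := unit_bound hK ck fun p hp => (hS p hp).good.kpos.self_of_nhds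
  set R := C1 + C2 + 1 with hR
  let B : Set (V × V × Y × Y) := closedBall 0 R
  have hB : IsCompact B := isCompact_closedBall 0 R
  have hKB : IsCompact (K ×ˢ B) := hK.prod hB
  have hh : ContinuousOn (fun q : Cfg P V Y => (D q.1).h x) (K ×ˢ B) :=
    ch.comp continuousOn_fst fun q hq => hq.1
  have hk : ContinuousOn (fun q : Cfg P V Y => (D q.1).k x) (K ×ˢ B) :=
    ck.comp continuousOn_fst fun q hq => hq.1
  have f1 : ContinuousOn (fun q : Cfg P V Y => (D q.1).h x q.2.1 q.2.1) (K ×ˢ B) :=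
    (hh.clm_apply (by fun_prop)).clm_apply (by fun_prop)
  have f2 : ContinuousOn (fun q : Cfg P V Y => (D q.1).h x q.2.1 q.2.2.1) (K ×ˢ B) :=
    (hh.clm_apply (by fun_prop)).clm_apply (by fun_prop)
  have f3 : ContinuousOn (fun q : Cfg P V Y => (D q.1).k x q.2.2.2.1 q.2.2.2.1) (K ×ˢ B) :=
    (hk.clm_apply (by fun_prop)).clm_apply (by fun_prop)
  have f4 : ContinuousOn (fun q : Cfg P V Y => (D q.1).k x q.2.2.2.1 q.2.2.2.2) (K ×ˢ B) :=
    (hk.clm_apply (by fun_prop)).clm_apply (by fun_prop)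
  have f5 : ContinuousOn (fun q : Cfg P V Y => (D q.1).h x q.2.2.1 q.2.2.1
      + (D q.1).k x q.2.2.2.2 q.2.2.2.2) (K ×ˢ B) :=
    ((hh.clm_apply (by fun_prop)).clm_apply (by fun_prop)).add
      ((hk.clm_apply (by fun_prop)).clm_apply (by fun_prop))
  let F : Cfg P V Y → ℝ × ℝ × ℝ × ℝ × ℝ := fun q => ((D q.1).h x q.2.1 q.2.1,
    (D q.1).h x q.2.1 q.2.2.1, (D q.1).k x q.2.2.2.1 q.2.2.2.1, (D q.1).k x q.2.2.2.1 q.2.2.2.2,
    (D q.1).h x q.2.2.1 q.2.2.1 + (D q.1).k x q.2.2.2.2 q.2.2.2.2)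
  have hF : ContinuousOn F (K ×ˢ B) := f1.prodMk (f2.prodMk (f3.prodMk (f4.prodMk f5)))
  let KK : Set (Cfg P V Y) := (K ×ˢ B) ∩ F ⁻¹' {(1, 0, 1, 0, 1)}
  have hKK : IsCompact KK := by
    have hcl : IsClosed KK := hF.preimage_isClosed_of_isClosed hKB.isClosed isClosed_singleton
    exact hKB.of_isClosed_subset hcl inter_subset_left
  have hTE : ContinuousOn (fun q : Cfg P V Y =>
      TE (D q.1) x q.2.1 q.2.2.1 q.2.2.2.1 q.2.2.2.2) KK :=
    (continuousOn_TE D x).mono fun q hq => hS q.1 hq.1.1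
  have hTpos : ∀ q ∈ KK, 0 < TE (D q.1) x q.2.1 q.2.2.1 q.2.2.2.1 q.2.2.2.2 := by
    rintro ⟨p, X, U, y, w⟩ ⟨⟨hp, -⟩, hq⟩
    have hq' : F (p, X, U, y, w) = (1, 0, 1, 0, 1) := hq
    simp only [F, Prod.mk.injEq] at hq'
    obtain ⟨g1, g2, g3, g4, g5⟩ := hq'
    refine hpos p hp X U y w g1 g2 g3 g4 ?_
    by_contra hne
    rw [not_or, not_not, not_not] at hne
    rw [hne.1, hne.2] at g5
    simp at g5
  obtain ⟨c, hc, Hc⟩ : ∃ c : ℝ, 0 < c ∧ ∀ q ∈ KK,
      c ≤ TE (D q.1) x q.2.1 q.2.2.1 q.2.2.2.1 q.2.2.2.2 := by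
    rcases KK.eq_empty_or_nonempty with he | hne
    · exact ⟨1, one_pos, fun q hq => by rw [he] at hq; exact absurd hq (notMem_empty q)⟩
    · obtain ⟨q0, hq0, hmin⟩ := hKK.exists_isMinOn hne hTE
      exact ⟨_, hTpos q0 hq0, fun q hq => hmin hq⟩
  refine ⟨c, hc, fun p hp X U y w hX hXU hy hyw t ht => ?_⟩
  have H := hS p hp
  rw [← TE_eq H ht]
  have hnn1 : 0 ≤ (D p).h x U U := by
    rcases eq_or_ne U 0 with h | h
    · rw [h]; simp
    · exact (H.good.hpos.self_of_nhds U h).le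
  have hnn2 : 0 ≤ (D p).k x w w := by
    rcases eq_or_ne w 0 with h | h
    · rw [h]; simp
    · exact (H.good.kpos.self_of_nhds w h).le
  rcases eq_or_lt_of_le (add_nonneg hnn1 hnn2) with h0 | hlt
  · have hU0 : U = 0 := by
      by_contra h
      have := H.good.hpos.self_of_nhds U h
      linarith
    have hw0 : w = 0 := by
      by_contra h
      have := H.good.kpos.self_of_nhds w h
      linarith
    rw [← h0, hU0, hw0, mul_zero]
    have h2 := TE_smul H (two_ne_zero (α := ℝ)) X 0 y 0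
    rw [smul_zero, smul_zero] at h2
    linarith
  · set N := (D p).h x U U + (D p).k x w w with hN
    set r := (Real.sqrt N)⁻¹ with hr
    have hsN : 0 < Real.sqrt N := Real.sqrt_pos.2 hlt
    have hr0 : r ≠ 0 := inv_ne_zero hsN.ne'
    have hr2 : r ^ 2 * N = 1 := by
      rw [hr, inv_pow, Real.sq_sqrt hlt.le, inv_mul_cancel₀ hlt.ne']
    have e5 : (D p).h x (r • U) (r • U) + (D p).k x (r • w) (r • w) = 1 := by
      simp only [map_smul, _root_.smul_apply, smul_eq_mul]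
      rw [← hr2, hN]
      ring
    have hn1 : 0 ≤ (D p).h x (r • U) (r • U) := by
      simp only [map_smul, _root_.smul_apply, smul_eq_mul, ← mul_assoc]
      exact mul_nonneg (mul_self_nonneg r) hnn1
    have hn2 : 0 ≤ (D p).k x (r • w) (r • w) := by
      simp only [map_smul, _root_.smul_apply, smul_eq_mul, ← mul_assoc]
      exact mul_nonneg (mul_self_nonneg r) hnn2
    have bd : ∀ (a C : ℝ), 0 ≤ a → 0 < C → C ≤ C1 + C2 → a ^ 2 ≤ C → a ≤ R := by
      intro a C ha hC hCR h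
      nlinarith [sq_nonneg (a - 1)]
    have bX : ‖X‖ ≤ R := bd _ C1 (norm_nonneg _) hC1 (by linarith) (by
      have := H1 p hp X; rw [hX, mul_one] at this; exact this)
    have by' : ‖y‖ ≤ R := bd _ C2 (norm_nonneg _) hC2 (by linarith) (by
      have := H2 p hp y; rw [hy, mul_one] at this; exact this)
    have bU : ‖r • U‖ ≤ R := bd _ C1 (norm_nonneg _) hC1 (by linarith) (by
      have := H1 p hp (r • U)
      nlinarith)
    have bw : ‖r • w‖ ≤ R := bd _ C2 (norm_nonneg _) hC2 (by linarith) (by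
      have := H2 p hp (r • w)
      nlinarith)
    have hmem : ((p, X, r • U, y, r • w) : Cfg P V Y) ∈ KK := by
      refine ⟨⟨hp, ?_⟩, ?_⟩
      · show ((X, r • U, y, r • w) : V × V × Y × Y) ∈ closedBall 0 R
        rw [mem_closedBall, dist_zero_right]
        simp only [Prod.norm_mk, max_le_iff]
        exact ⟨bX, bU, by', bw⟩
      · show F (p, X, r • U, y, r • w) = (1, 0, 1, 0, 1)
        simp only [F, Prod.mk.injEq]
        refine ⟨hX, ?_, hy, ?_, e5⟩
        · rw [map_smul, hXU, smul_zero]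
        · rw [map_smul, hyw, smul_zero]
    have h6 := Hc _ hmem
    simp only at h6
    rw [TE_smul H hr0] at h6
    have h7 : c * N ≤ r ^ 2 * TE (D p) x X U y w * N := mul_le_mul_of_nonneg_right h6 hlt.le
    calc c * N ≤ r ^ 2 * TE (D p) x X U y w * N := h7
      _ = (r ^ 2 * N) * TE (D p) x X U y w := by ring
      _ = TE (D p) x X U y w := by rw [hr2, one_mul]

private lemma bd_aux {K : Set P} (hK : IsCompact K) (R : ℝ) {f : P × St V Y → ℝ}
    (hf : ∀ p ∈ K, ∀ s : St V Y, s.1 = x → ContinuousWithinAt f {q | SmF D q.1 q.2.1} (p, s))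
    (hS : ∀ p ∈ K, SmF D p x) :
    ∃ B : ℝ, ∀ p ∈ K, ∀ s : St V Y, s.1 = x → ‖s.2‖ ≤ R → |f (p, s)| ≤ B := by
  let B : Set (V × V × Y × Y × Y × Y) := closedBall 0 R
  have hKB : IsCompact (K ×ˢ B) := hK.prod (isCompact_closedBall 0 R)
  let ι : P × (V × V × Y × Y × Y × Y) → P × St V Y := fun q => (q.1, (x, q.2))
  have hι : Continuous ι := by fun_prop
  have hc : ContinuousOn (fun q => f (ι q)) (K ×ˢ B) := by
    rintro ⟨p, s⟩ ⟨hp, -⟩
    refine ContinuousWithinAt.comp (t := {q | SmF D q.1 q.2.1}) (f := ι) (hf p hp (x, s) rfl)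
      hι.continuousWithinAt ?_
    rintro ⟨p', s'⟩ ⟨hp', -⟩
    exact hS p' hp'
  obtain ⟨b, hb⟩ := hKB.exists_bound_of_continuousOn hc
  refine ⟨b, fun p hp s hs hn => ?_⟩
  have h1 := hb (p, s.2) ⟨hp, by simpa [B] using hn⟩
  have e : ι (p, s.2) = (p, s) := by
    simp only [ι]
    rw [← hs]
  rw [e] at h1
  simpa using h1

theorem Bdd_of_smooth {K : Set P} (hK : IsCompact K) (D : P → BD V Y) (x : V)
    (hS : ∀ p ∈ K, SmF D p x) : ∃ b : ℝ, ∀ p ∈ K, (D p).Bdd x b := by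
  have ch : ContinuousOn (fun p => (D p).h x) K := fun p hp =>
    (ContDiffAt.comp p (f := fun p : P => ((p, x) : P × V)) (hS p hp).h
      (by fun_prop)).continuousAt.continuousWithinAt
  have ck : ContinuousOn (fun p => (D p).k x) K := fun p hp =>
    (ContDiffAt.comp p (f := fun p : P => ((p, x) : P × V)) (hS p hp).k
      (by fun_prop)).continuousAt.continuousWithinAt
  obtain ⟨C1, hC1, H1⟩ := unit_bound hK ch fun p hp => (hS p hp).good.hpos.self_of_nhds
  obtain ⟨C2, hC2, H2⟩ := unit_bound hK ck fun p hp => (hS p hp).good.kpos.self_of_nhds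
  set R := C1 + C2 + 1 with hR
  have bd : ∀ (a C : ℝ), 0 ≤ a → 0 < C → C ≤ C1 + C2 → a ^ 2 ≤ C → a ≤ R := by
    intro a C ha hC hCR h
    nlinarith [sq_nonneg (a - 1)]
  have bV : ∀ p ∈ K, ∀ X : V, (D p).h x X X = 1 → ‖X‖ ≤ R := fun p hp X hX =>
    bd _ C1 (norm_nonneg _) hC1 (by linarith) (by
      have := H1 p hp X; rw [hX, mul_one] at this; exact this)
  have bY : ∀ p ∈ K, ∀ y : Y, (D p).k x y y = 1 → ‖y‖ ≤ R := fun p hp y hy =>
    bd _ C2 (norm_nonneg _) hC2 (by linarith) (by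
      have := H2 p hp y; rw [hy, mul_one] at this; exact this)
  have hR0 : 0 ≤ R := by positivity
  have S1 : ∀ p ∈ K, ∀ s : St V Y, s.1 = x → SmF D p s.1 := fun p hp s hs => hs ▸ hS p hp
  obtain ⟨B0, h0⟩ := bd_aux (D := D) (x := x) hK R (f := fun q : P × St V Y =>
    num (D q.1).h q.2.1 q.2.2.1 q.2.2.2.1) (fun p hp s hs => s_num D (p, s) (S1 p hp s hs)) hS
  obtain ⟨B1, h1⟩ := bd_aux (D := D) (x := x) hK R (f := fun q : P × St V Y => (D q.1).OmS q.2)
    (fun p hp s hs => (s_OmS (q := (p, s)) (S1 p hp s hs)).continuousAt.continuousWithinAt) hS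
  obtain ⟨B2, h2⟩ := bd_aux (D := D) (x := x) hK R (f := fun q : P × St V Y =>
      lie (D q.1).Xs (D q.1).OmS q.2)
    (fun p hp s hs => (s_lOm (q := (p, s)) (S1 p hp s hs)).continuousAt.continuousWithinAt) hS
  obtain ⟨B3, h3⟩ := bd_aux (D := D) (x := x) hK R (f := fun q : P × St V Y => (D q.1).SS q.2)
    (fun p hp s hs => (s_SS (q := (p, s)) (S1 p hp s hs)).continuousAt.continuousWithinAt) hS
  obtain ⟨B4, h4⟩ := bd_aux (D := D) (x := x) hK R (f := fun q : P × St V Y =>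
      lie (D q.1).Xs (D q.1).SS q.2)
    (fun p hp s hs => (s_lS (q := (p, s)) (S1 p hp s hs)).continuousAt.continuousWithinAt) hS
  obtain ⟨B5, h5⟩ := bd_aux (D := D) (x := x) hK R (f := fun q : P × St V Y =>
      lie (D q.1).Xs (lie (D q.1).Xs (D q.1).SS) q.2)
    (fun p hp s hs => (s_llS (q := (p, s)) (S1 p hp s hs)).continuousAt.continuousWithinAt) hS
  have nl : ∀ (X Z : V) (a b c d : Y), ‖X‖ ≤ R → ‖Z‖ ≤ R → ‖a‖ ≤ R → ‖b‖ ≤ R → ‖c‖ ≤ R →
      ‖d‖ ≤ R → ‖((X, Z, a, b, c, d) : V × V × Y × Y × Y × Y)‖ ≤ R := by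
    intro X Z a b c d hX hZ ha hb hc hd
    simp only [Prod.norm_mk, max_le_iff]
    exact ⟨hX, hZ, ha, hb, hc, hd⟩
  have z0 : ‖(0 : V)‖ ≤ R := by simpa using hR0
  have z1 : ‖(0 : Y)‖ ≤ R := by simpa using hR0
  refine ⟨max (max (max B0 B1) (max B2 B3)) (max B4 B5), fun p hp => ⟨?_, ?_, ?_, ?_, ?_, ?_⟩⟩
  · intro X Z hX hZ
    refine (h0 p hp (x, X, Z, 0, 0, 0, 0) rfl (nl _ _ _ _ _ _ (bV p hp X hX) (bV p hp Z hZ)
      z1 z1 z1 z1)).trans ?_
    simp
  · intro X Z y w hX hZ hy hw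
    refine (h1 p hp (x, X, Z, y, w, y, w) rfl (nl _ _ _ _ _ _ (bV p hp X hX) (bV p hp Z hZ)
      (bY p hp y hy) (bY p hp w hw) (bY p hp y hy) (bY p hp w hw))).trans ?_
    simp
  · intro X Z y w hX hZ hy hw
    refine (h2 p hp (x, X, Z, y, w, y, w) rfl (nl _ _ _ _ _ _ (bV p hp X hX) (bV p hp Z hZ)
      (bY p hp y hy) (bY p hp w hw) (bY p hp y hy) (bY p hp w hw))).trans ?_
    simp
  · intro a b c d ha hb hc hd
    refine (h3 p hp (x, 0, 0, a, b, c, d) rfl (nl _ _ _ _ _ _ z0 z0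
      (bY p hp a ha) (bY p hp b hb) (bY p hp c hc) (bY p hp d hd))).trans ?_
    simp
  · intro X a b c d hX ha hb hc hd
    refine (h4 p hp (x, X, X, a, b, c, d) rfl (nl _ _ _ _ _ _ (bV p hp X hX) (bV p hp X hX)
      (bY p hp a ha) (bY p hp b hb) (bY p hp c hc) (bY p hp d hd))).trans ?_
    simp
  · intro X a b c d hX ha hb hc hd
    refine (h5 p hp (x, X, X, a, b, c, d) rfl (nl _ _ _ _ _ _ (bV p hp X hX) (bV p hp X hX)
      (bY p hp a ha) (bY p hp b hb) (bY p hp c hc) (bY p hp d hd))).trans ?_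
    simp

end cpt

end Pool.Agent.Helper46.Gen
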