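import Pool.Agent.Helper46.M8.St.A5

/-!
# Families of bundle data depending smoothly on parameters
-/

open Filter Metric Module Set
open scoped Topology ContDiff

set_option maxSynthPendingDepth 3

namespace Pool.Agent.Helper46.Gen
open Pool.Agent.Helper20.PC Pool.Agent.Helper20.HP Pool.Agent.Helper20.M8 Pool.Agent.Helper20.MB
open Pool.Agent.Helper46.M8 (chrL GamL GamL_eq contDiffAt_fderiv_param contDiffAt_lie_param
  contDiffAt_inverse_comp)

variable {P V Y : Type*} [NormedAddCommGroup P] [NormedSpace ℝ P] [NormedAddCommGroup V]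
  [NormedSpace ℝ V] [FiniteDimensional ℝ V] [NormedAddCommGroup Y] [NormedSpace ℝ Y]

/-- a positive definite form is invertible. -/
theorem inv_of_pos {B : V →L[ℝ] V →L[ℝ] ℝ} (h : ∀ u, u ≠ 0 → 0 < B u u) : B.IsInvertible := by
  have hinj : Function.Injective (B : V →ₗ[ℝ] (V →L[ℝ] ℝ)) := by
    rw [injective_iff_map_eq_zero]
    intro ξ hξ
    by_contra hne
    have h1 := h ξ hne
    have h2 : B ξ = 0 := hξ
    rw [h2] at h1
    simp at h1
  have hfr : Module.finrank ℝ V = Module.finrank ℝ (V →L[ℝ] ℝ) := by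
    have e : (V →L[ℝ] ℝ) ≃ₗ[ℝ] (V →ₗ[ℝ] ℝ) := LinearMap.toContinuousLinearMap.symm
    rw [e.finrank_eq, Module.finrank_linearMap, Module.finrank_self, mul_one]
  have : FiniteDimensional ℝ (V →L[ℝ] ℝ) :=
    LinearMap.toContinuousLinearMap.finiteDimensional
  let e := LinearEquiv.ofInjectiveOfFinrankEq (B : V →ₗ[ℝ] (V →L[ℝ] ℝ)) hinj hfr
  refine ⟨e.toContinuousLinearEquiv, ?_⟩
  ext ξ
  rfl

/-- smoothness of the connection form of a family of metrics. -/
theorem contDiffAt_GamL {G : P → V → V →L[ℝ] V →L[ℝ] ℝ} {p : P} {z : V}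
    (h1 : ContDiffAt ℝ ∞ (fun q : P × V => G q.1 q.2) (p, z)) (hi : (G p z).IsInvertible) :
    ContDiffAt ℝ ∞ (fun q : P × V => GamL (G q.1) q.2) (p, z) := by
  have h2 : ContDiffAt ℝ ∞ (fun q : P × V => (G q.1 q.2).inverse) (p, z) :=
    contDiffAt_inverse_comp (F := fun q : P × V => G q.1 q.2) h1 hi
  have h3 : ContDiffAt ℝ ∞ (fun q : P × V => fderiv ℝ (G q.1) q.2) (p, z) :=
    contDiffAt_fderiv_param (F := fun q : P × V => G q.1 q.2) h1
  have h4 : ContDiffAt ℝ ∞ (fun q : P × V => (fderiv ℝ (G q.1) q.2).flip) (p, z) :=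
    ContDiffAt.comp (g := fun B : V →L[ℝ] V →L[ℝ] V →L[ℝ] ℝ => B.flip) (p, z)
      (ContinuousLinearMap.flipₗᵢ ℝ V V (V →L[ℝ] ℝ)).contDiff.contDiffAt h3
  have h5 : ContDiffAt ℝ ∞ (fun q : P × V => chrL (G q.1) q.2) (p, z) := by
    unfold chrL
    exact ContDiffAt.const_smul _ ((h3.add h4).sub (contDiffAt_const.clm_comp h4))
  have h6 : ContDiffAt ℝ ∞ (fun q : P × V => (ContinuousLinearMap.compL ℝ V (V →L[ℝ] ℝ) V)
      (G q.1 q.2).inverse) (p, z) :=
    ContDiffAt.comp (g := fun B : (V →L[ℝ] ℝ) →L[ℝ] V => ContinuousLinearMap.compL ℝ V (V →L[ℝ] ℝ) V B) (p, z)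
    (ContinuousLinearMap.compL ℝ V (V →L[ℝ] ℝ) V).contDiff.contDiffAt h2
  unfold GamL
  exact h6.clm_comp h5

omit [FiniteDimensional ℝ V] in
theorem Gam_near {G : P → V → V →L[ℝ] V →L[ℝ] ℝ} {q : P × V}
    (h1 : ContDiffAt ℝ 2 (fun q : P × V => G q.1 q.2) q) :
    ∀ᶠ q' in 𝓝 q, ∀ u v, Gam (G q'.1) q'.2 u v = GamL (G q'.1) q'.2 u v := by
  filter_upwards [h1.eventually (by norm_num)] with q' hq' u v
  have h2 : ContDiffAt ℝ 2 (fun z' : V => ((q'.1, z') : P × V)) q'.2 :=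
    contDiffAt_const.prodMk contDiffAt_id
  have h3 : ContDiffAt ℝ 2 (G q'.1) q'.2 :=
    ContDiffAt.comp (g := fun q : P × V => G q.1 q.2) q'.2 hq' h2
  exact (GamL_eq h3 u v).symm

/-- the family `D` is smooth at `(p, x)`. -/
structure SmF (D : P → BD V Y) (p : P) (x : V) : Prop where
  h : ContDiffAt ℝ ∞ (fun q : P × V => (D q.1).h q.2) (p, x)
  A : ContDiffAt ℝ ∞ (fun q : P × V => (D q.1).A q.2) (p, x)
  k : ContDiffAt ℝ ∞ (fun q : P × V => (D q.1).k q.2) (p, x)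
  S : @ContDiffAt ℝ _ (P × V) _ _ (Y →L[ℝ] Y →L[ℝ] Y →L[ℝ] Y →L[ℝ] ℝ) (ngk4 Y) (nsk4 Y) ∞
    (fun q : P × V => (D q.1).S q.2) (p, x)
  good : (D p).Good x

variable {D : P → BD V Y} {p : P} {x : V}

omit [FiniteDimensional ℝ V] in
lemma SmF.met (H : SmF D p x) : MetAt (D p).h x :=
  ⟨H.good.hh.of_le (by exact WithTop.coe_le_coe.2 le_top), H.good.hsymm, H.good.hpos⟩

lemma SmF.inv (H : SmF D p x) : ((D p).h x).IsInvertible := inv_of_pos H.good.hpos.self_of_nhds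

section smooth
variable {q : P × St V Y}

private abbrev pr (q : P × St V Y) : P × V := (q.1, q.2.1)

omit [FiniteDimensional ℝ V] in
private lemma pr_smooth (q : P × St V Y) :
    ContDiffAt ℝ ∞ (fun q : P × St V Y => ((q.1, q.2.1) : P × V)) q := by fun_prop

omit [FiniteDimensional ℝ V] in
private lemma pr_comp {E : Type*} [NormedAddCommGroup E] [NormedSpace ℝ E] (F : P × V → E)
    (h : ContDiffAt ℝ ∞ F (q.1, q.2.1)) :
    ContDiffAt ℝ ∞ (fun q : P × St V Y => F (q.1, q.2.1)) q :=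
  ContDiffAt.comp q (f := fun q : P × St V Y => ((q.1, q.2.1) : P × V)) h (pr_smooth q)

private lemma s_Gam (H : SmF D q.1 q.2.1) {f g : P × St V Y → V}
    (hf : ContDiffAt ℝ ∞ f q) (hg : ContDiffAt ℝ ∞ g q) :
    ContDiffAt ℝ ∞ (fun q : P × St V Y => Gam (D q.1).h q.2.1 (f q) (g q)) q := by
  have h0 : ContDiffAt ℝ ∞ (fun q : P × St V Y => GamL (D q.1).h q.2.1) q :=
    pr_comp (fun q : P × V => GamL (D q.1).h q.2) (contDiffAt_GamL (G := fun p => (D p).h) H.h H.inv)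
  have h1 : ContDiffAt ℝ ∞ (fun q : P × St V Y => GamL (D q.1).h q.2.1 (f q) (g q)) q :=
    (h0.clm_apply hf).clm_apply hg
  refine h1.congr_of_eventuallyEq ?_
  have h2 := (pr_smooth q).continuousAt.eventually (Gam_near (G := fun p => (D p).h)
    (q := (q.1, q.2.1)) (H.h.of_le (by exact WithTop.coe_le_coe.2 le_top)))
  filter_upwards [h2] with q' hq'
  exact hq' _ _

omit [FiniteDimensional ℝ V] in
private lemma s_A (H : SmF D q.1 q.2.1) :
    ContDiffAt ℝ ∞ (fun q : P × St V Y => (D q.1).A q.2.1) q :=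
  pr_comp (fun q : P × V => (D q.1).A q.2) H.A

omit [FiniteDimensional ℝ V] in
private lemma s_dA (H : SmF D q.1 q.2.1) :
    ContDiffAt ℝ ∞ (fun q : P × St V Y => fderiv ℝ (D q.1).A q.2.1) q :=
  pr_comp (fun q : P × V => fderiv ℝ (D q.1).A q.2)
    (contDiffAt_fderiv_param (F := fun q : P × V => (D q.1).A q.2) (p := q.1) (z := q.2.1) H.A)

theorem s_Xs (H : SmF D q.1 q.2.1) :
    ContDiffAt ℝ ∞ (fun q : P × St V Y => (D q.1).Xs q.2) q := by
  have hA : ∀ {f : P × St V Y → Y}, ContDiffAt ℝ ∞ f q → ContDiffAt ℝ ∞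
      (fun q : P × St V Y => - (D q.1).A q.2.1 q.2.2.1 (f q)) q := fun hf =>
    (((s_A H).clm_apply (by fun_prop)).clm_apply hf).neg
  have hG : ∀ {f : P × St V Y → V}, ContDiffAt ℝ ∞ f q → ContDiffAt ℝ ∞
      (fun q : P × St V Y => - Gam (D q.1).h q.2.1 q.2.2.1 (f q)) q := fun hf =>
    (s_Gam H (by fun_prop) hf).neg
  unfold BD.Xs
  refine ContDiffAt.prodMk (by fun_prop) (ContDiffAt.prodMk (hG (by fun_prop))
    (ContDiffAt.prodMk (hG (by fun_prop)) (ContDiffAt.prodMk (hA (by fun_prop))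
    (ContDiffAt.prodMk (hA (by fun_prop)) (ContDiffAt.prodMk (hA (by fun_prop))
    (hA (by fun_prop)))))))

omit [FiniteDimensional ℝ V] in
private lemma s_OmV (H : SmF D q.1 q.2.1) {f g : P × St V Y → V}
    (hf : ContDiffAt ℝ ∞ f q) (hg : ContDiffAt ℝ ∞ g q) :
    ContDiffAt ℝ ∞ (fun q : P × St V Y => OmV (D q.1).A q.2.1 (f q) (g q)) q := by
  unfold OmV
  have h1 := s_dA H
  have h2 := s_A H
  exact ((((h1.clm_apply hf).clm_apply hg).sub ((h1.clm_apply hg).clm_apply hf)).add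
    ((h2.clm_apply hf).clm_comp (h2.clm_apply hg))).sub
      ((h2.clm_apply hg).clm_comp (h2.clm_apply hf))

omit [FiniteDimensional ℝ V] in
theorem s_OmS (H : SmF D q.1 q.2.1) :
    ContDiffAt ℝ ∞ (fun q : P × St V Y => (D q.1).OmS q.2) q := by
  have h1 : ContDiffAt ℝ ∞ (fun q : P × St V Y =>
      OmV (D q.1).A q.2.1 q.2.2.1 q.2.2.2.1 q.2.2.2.2.2.1) q :=
    (s_OmV H (by fun_prop) (by fun_prop)).clm_apply (by fun_prop)
  have h2 : ContDiffAt ℝ ∞ (fun q : P × St V Y => (D q.1).k q.2.1) q :=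
    pr_comp (fun q : P × V => (D q.1).k q.2) H.k
  exact (h2.clm_apply (by fun_prop)).clm_apply h1

omit [FiniteDimensional ℝ V] in
theorem s_SS (H : SmF D q.1 q.2.1) :
    ContDiffAt ℝ ∞ (fun q : P × St V Y => (D q.1).SS q.2) q := by
  have h2 : ContDiffAt ℝ ∞ (fun q : P × St V Y => (D q.1).S q.2.1) q :=
    pr_comp (fun q : P × V => (D q.1).S q.2) H.S
  exact (((h2.clm_apply (by fun_prop)).clm_apply (by fun_prop)).clm_apply (by fun_prop)).clm_apply
    (by fun_prop)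

theorem s_lOm (H : SmF D q.1 q.2.1) :
    ContDiffAt ℝ ∞ (fun q : P × St V Y => lie (D q.1).Xs (D q.1).OmS q.2) q :=
  contDiffAt_lie_param (X := fun q : P × St V Y => (D q.1).Xs q.2)
      (f := fun q : P × St V Y => (D q.1).OmS q.2) (p := q.1) (z := q.2)
      (s_Xs H) (s_OmS H)

theorem s_lS (H : SmF D q.1 q.2.1) :
    ContDiffAt ℝ ∞ (fun q : P × St V Y => lie (D q.1).Xs (D q.1).SS q.2) q :=
  contDiffAt_lie_param (X := fun q : P × St V Y => (D q.1).Xs q.2)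
      (f := fun q : P × St V Y => (D q.1).SS q.2) (p := q.1) (z := q.2)
      (s_Xs H) (s_SS H)

theorem s_llS (H : SmF D q.1 q.2.1) :
    ContDiffAt ℝ ∞ (fun q : P × St V Y => lie (D q.1).Xs (lie (D q.1).Xs (D q.1).SS) q.2) q :=
  contDiffAt_lie_param (X := fun q : P × St V Y => (D q.1).Xs q.2)
      (f := fun q : P × St V Y => lie (D q.1).Xs (D q.1).SS q.2) (p := q.1) (z := q.2)
      (s_Xs H) (s_lS H)

omit [FiniteDimensional ℝ V] in
private lemma fGam (H : SmF D p x) (hc : DifferentiableAt ℝ (GamL (D p).h) x) (u v w : V) :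
    fderiv ℝ (fun z' => Gam (D p).h z' v w) x u = fderiv ℝ (GamL (D p).h) x u v w := by
  have hi : ContDiffAt ℝ ∞ (fun z' : V => ((p, z') : P × V)) x :=
    contDiffAt_const.prodMk contDiffAt_id
  have h1 : (fun z' => Gam (D p).h z' v w) =ᶠ[𝓝 x] fun z' => GamL (D p).h z' v w := by
    have := hi.continuousAt.eventually (Gam_near (G := fun p => (D p).h) (q := (p, x))
      (H.h.of_le (by exact WithTop.coe_le_coe.2 le_top)))
    filter_upwards [this] with z' hz'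
    exact hz' v w
  rw [h1.fderiv_eq (𝕜 := ℝ)]
  have h3 := ((hc.hasFDerivAt.clm_apply (hasFDerivAt_const v x)).clm_apply
    (hasFDerivAt_const w x)).fderiv
  rw [h3]
  simp

/-- the numerator of the sectional curvature. -/
theorem s_num (D : P → BD V Y) :
    ContinuousOn (fun q : P × St V Y => num (D q.1).h q.2.1 q.2.2.1 q.2.2.2.1)
      {q : P × St V Y | SmF D q.1 q.2.1} := by
  have h3 : ContinuousOn (fun q : P × St V Y => (D q.1).h q.2.1
      (fderiv ℝ (GamL (D q.1).h) q.2.1 q.2.2.1 q.2.2.2.1 q.2.2.2.1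
        - fderiv ℝ (GamL (D q.1).h) q.2.1 q.2.2.2.1 q.2.2.1 q.2.2.2.1
        + Gam (D q.1).h q.2.1 q.2.2.1 (Gam (D q.1).h q.2.1 q.2.2.2.1 q.2.2.2.1)
        - Gam (D q.1).h q.2.1 q.2.2.2.1 (Gam (D q.1).h q.2.1 q.2.2.1 q.2.2.2.1))
      q.2.2.1) {q : P × St V Y | SmF D q.1 q.2.1} := by
    intro q H
    have H : SmF D q.1 q.2.1 := H
    have h1 : ContDiffAt ℝ ∞ (fun q : P × St V Y => (D q.1).h q.2.1) q :=
      pr_comp (fun q : P × V => (D q.1).h q.2) H.h
    have h2 : ContDiffAt ℝ ∞ (fun q : P × St V Y => fderiv ℝ (GamL (D q.1).h) q.2.1) q :=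
      pr_comp (fun q : P × V => fderiv ℝ (GamL (D q.1).h) q.2)
        (contDiffAt_fderiv_param (F := fun q : P × V => GamL (D q.1).h q.2)
          (p := q.1) (z := q.2.1) (contDiffAt_GamL (G := fun p => (D p).h) H.h H.inv))
    have hX : ContDiffAt ℝ ∞ (fun q : P × St V Y => q.2.2.1) q := by fun_prop
    have hZ : ContDiffAt ℝ ∞ (fun q : P × St V Y => q.2.2.2.1) q := by fun_prop
    refine ContDiffAt.continuousAt (𝕜 := ℝ) (n := ∞) ?_ |>.continuousWithinAt
    refine (h1.clm_apply (ContDiffAt.sub (ContDiffAt.add (ContDiffAt.sub ?_ ?_) ?_) ?_)).clm_apply hX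
    · exact ((h2.clm_apply hX).clm_apply hZ).clm_apply hZ
    · exact ((h2.clm_apply hZ).clm_apply hX).clm_apply hZ
    · exact s_Gam H hX (s_Gam H hZ hZ)
    · exact s_Gam H hZ (s_Gam H hX hZ)
  refine h3.congr ?_
  intro q H
  have H : SmF D q.1 q.2.1 := H
  have hc : DifferentiableAt ℝ (GamL (D q.1).h) q.2.1 := by
    have h1 := (contDiffAt_GamL (G := fun p => (D p).h) H.h H.inv).differentiableAt (by simp)
    exact h1.comp q.2.1 (f := fun z : V => ((q.1, z) : P × V)) (by fun_prop)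
  dsimp only
  rw [← G_Riem H.met, Riem, fGam H hc, fGam H hc]

end smooth

end Pool.Agent.Helper46.Gen
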